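import Pool.Agent.Helper81.EMC.Goals

set_option autoImplicit false

namespace Pool.Agent.Helper38.EMC
open Helper81.EMC Finset MeasureTheory intervalIntegral

theorem gg_cont {n : ℕ} (a : ℝ) (y : Fin n → ℝ) : Continuous (GG a y) := by
  unfold GG
  fun_prop

theorem i0_zero {n : ℕ} (a : ℝ) (ha : 0 < a) :
    I0 a (0 : Fin n → ℝ) = 1 / (a * (n + 1)) := by
  have h1 : ∀ σ : ℝ, HasDerivAt (fun σ : ℝ => (1 + σ * a) ^ (n + 1) / (a * (n + 1)))
      (GG a (0 : Fin n → ℝ) σ) σ := by
    intro σ
    have h2 : HasDerivAt (fun σ : ℝ => 1 + σ * a) a σ := by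
      simpa using ((hasDerivAt_id σ).mul_const a).const_add 1
    have h3 := (h2.fun_pow (n + 1)).div_const (a * (n + 1))
    refine h3.congr_deriv ?_
    symm
    show (∏ j : Fin n, (1 - σ * ((0 : Fin n → ℝ) j - a))) = _
    have e0 : (∏ j : Fin n, (1 - σ * ((0 : Fin n → ℝ) j - a))) = (1 + σ * a) ^ n := by
      rw [Finset.prod_congr rfl (fun j _ => show (1 - σ * ((0 : Fin n → ℝ) j - a)) = 1 + σ * a by
        simp)]
      simp
    rw [e0]
    have : (0 : ℝ) < a * (n + 1) := by positivity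
    field_simp
    push_cast
    ring_nf
  unfold I0
  rw [integral_eq_sub_of_hasDerivAt (fun σ _ => h1 σ) ((gg_cont a 0).intervalIntegrable _ _)]
  have : (1 + (-1 / a) * a) = 0 := by field_simp; ring
  rw [this]
  simp

theorem ip_zero {n : ℕ} (a : ℝ) (ha : 0 < a) (h1a : a < 1) :
    Ip a (0 : Fin n → ℝ) 1 = 1 / (a * (n + 1)) * ((1 / (1 - a)) ^ (n + 1) - 1) := by
  have h1 : ∀ σ : ℝ, HasDerivAt (fun σ : ℝ => (1 + σ * a) ^ (n + 1) / (a * (n + 1)))
      (GG a (0 : Fin n → ℝ) σ) σ := by
    intro σ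
    have h2 : HasDerivAt (fun σ : ℝ => 1 + σ * a) a σ := by
      simpa using ((hasDerivAt_id σ).mul_const a).const_add 1
    have h3 := (h2.fun_pow (n + 1)).div_const (a * (n + 1))
    refine h3.congr_deriv ?_
    symm
    show (∏ j : Fin n, (1 - σ * ((0 : Fin n → ℝ) j - a))) = _
    have e0 : (∏ j : Fin n, (1 - σ * ((0 : Fin n → ℝ) j - a))) = (1 + σ * a) ^ n := by
      rw [Finset.prod_congr rfl (fun j _ => show (1 - σ * ((0 : Fin n → ℝ) j - a)) = 1 + σ * a by
        simp)]
      simp
    rw [e0]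
    have : (0 : ℝ) < a * (n + 1) := by positivity
    field_simp
    push_cast
    ring_nf
  unfold Ip
  rw [integral_eq_sub_of_hasDerivAt (fun σ _ => h1 σ) ((gg_cont a 0).intervalIntegrable _ _)]
  have h1a' : (1 - a) ≠ 0 := by linarith
  have : (1 + (1 / (1 - a)) * a) = 1 / (1 - a) := by field_simp; ring
  rw [this]
  have h0 : (0 : ℝ) < a * (n + 1) := by positivity
  rw [zero_mul, add_zero, one_pow, ← sub_div, mul_comm (1 / (a * ((n : ℝ) + 1))), mul_one_div]

theorem gg_upd {n : ℕ} (a : ℝ) (y : Fin n → ℝ) (j : Fin n) (e σ : ℝ) :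
    GG a (Function.update y j (y j - e)) σ =
      GG a y σ + e * (σ * ∏ i ∈ univ.erase j, (1 - σ * (y i - a))) := by
  unfold GG
  rw [← Finset.mul_prod_erase univ _ (Finset.mem_univ j),
    ← Finset.mul_prod_erase univ (fun i => 1 - σ * (y i - a)) (Finset.mem_univ j)]
  have : ∏ x ∈ univ.erase j, (1 - σ * (Function.update y j (y j - e) x - a)) =
      ∏ i ∈ univ.erase j, (1 - σ * (y i - a)) := by
    apply Finset.prod_congr rfl
    intro x hx
    rw [Function.update_of_ne (Finset.ne_of_mem_erase hx)]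
  rw [this, Function.update_self]
  ring

theorem deriv_phi {n : ℕ} (a : ℝ) (r : ℝ) (y : Fin n → ℝ) (u : ℝ) (j : Fin n) (hu : a < u) :
    HasDerivAt (fun e : ℝ => (1 - r) * I0 a (Function.update y j (y j - e)) -
        r * Ip a (Function.update y j (y j - e)) (u + e))
      ((1 - r) * (∫ σ in (-1 / a)..0, σ * ∏ i ∈ univ.erase j, (1 - σ * (y i - a))) -
        r * (GG a y (1 / (u - a)) * (-1 / (u - a) ^ 2) +
          ∫ σ in (0 : ℝ)..(1 / (u - a)), σ * ∏ i ∈ univ.erase j, (1 - σ * (y i - a)))) 0 := by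
  set P : ℝ → ℝ := fun σ => σ * ∏ i ∈ univ.erase j, (1 - σ * (y i - a)) with hP
  have hPc : Continuous P := by
    rw [hP]
    fun_prop
  have hGc := gg_cont a y
  have e1 : (fun e : ℝ => (1 - r) * I0 a (Function.update y j (y j - e)) -
        r * Ip a (Function.update y j (y j - e)) (u + e)) =
      fun e : ℝ => (1 - r) * (I0 a y + e * ∫ σ in (-1 / a)..0, P σ) -
        r * ((∫ σ in (0 : ℝ)..(1 / (u + e - a)), GG a y σ) +
          e * ∫ σ in (0 : ℝ)..(1 / (u + e - a)), P σ) := by
    funext e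
    unfold I0 Ip
    have : (fun σ => GG a (Function.update y j (y j - e)) σ) =
        fun σ => GG a y σ + e * P σ := by
      funext σ
      exact gg_upd a y j e σ
    rw [this, integral_add (hGc.intervalIntegrable _ _) ((hPc.const_mul e).intervalIntegrable _ _),
      integral_add (hGc.intervalIntegrable _ _) ((hPc.const_mul e).intervalIntegrable _ _),
      intervalIntegral.integral_const_mul, intervalIntegral.integral_const_mul]
  rw [e1]
  have hs : HasDerivAt (fun e : ℝ => 1 / (u + e - a)) (-1 / (u - a) ^ 2) 0 := by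
    have h2 : HasDerivAt (fun e : ℝ => u + e - a) 1 0 := by
      simpa using ((hasDerivAt_id (0 : ℝ)).const_add u).sub_const a
    have h3 := h2.fun_inv (by simp; linarith)
    simpa [one_div] using h3
  have F1 : HasDerivAt (fun x : ℝ => ∫ σ in (0 : ℝ)..x, GG a y σ) (GG a y (1 / (u + 0 - a)))
      (1 / (u + 0 - a)) :=
    integral_hasDerivAt_right (hGc.intervalIntegrable _ _)
      hGc.aestronglyMeasurable.stronglyMeasurableAtFilter hGc.continuousAt
  have F2 : HasDerivAt (fun x : ℝ => ∫ σ in (0 : ℝ)..x, P σ) (P (1 / (u + 0 - a)))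
      (1 / (u + 0 - a)) :=
    integral_hasDerivAt_right (hPc.intervalIntegrable _ _)
      hPc.aestronglyMeasurable.stronglyMeasurableAtFilter hPc.continuousAt
  have G1 : HasDerivAt (fun e : ℝ => ∫ σ in (0 : ℝ)..(1 / (u + e - a)), GG a y σ)
      (GG a y (1 / (u + 0 - a)) * (-1 / (u - a) ^ 2)) 0 :=
    HasDerivAt.comp (h₂ := fun x : ℝ => ∫ σ in (0 : ℝ)..x, GG a y σ)
      (h := fun e : ℝ => 1 / (u + e - a)) (0 : ℝ) F1 hs
  have G2 : HasDerivAt (fun e : ℝ => ∫ σ in (0 : ℝ)..(1 / (u + e - a)), P σ)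
      (P (1 / (u + 0 - a)) * (-1 / (u - a) ^ 2)) 0 :=
    HasDerivAt.comp (h₂ := fun x : ℝ => ∫ σ in (0 : ℝ)..x, P σ)
      (h := fun e : ℝ => 1 / (u + e - a)) (0 : ℝ) F2 hs
  have H1 : HasDerivAt (fun e : ℝ => (1 - r) * (I0 a y + e * ∫ σ in (-1 / a)..0, P σ))
      ((1 - r) * (1 * ∫ σ in (-1 / a)..0, P σ)) 0 :=
    (((hasDerivAt_id' (0 : ℝ)).mul_const (∫ σ in (-1 / a)..0, P σ)).const_add
      (I0 a y)).const_mul (1 - r)
  have H2 : HasDerivAt (fun e : ℝ => r * ((∫ σ in (0 : ℝ)..(1 / (u + e - a)), GG a y σ) +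
      e * ∫ σ in (0 : ℝ)..(1 / (u + e - a)), P σ))
      (r * (GG a y (1 / (u + 0 - a)) * (-1 / (u - a) ^ 2) +
        (1 * (∫ σ in (0 : ℝ)..(1 / (u + 0 - a)), P σ) +
          0 * (P (1 / (u + 0 - a)) * (-1 / (u - a) ^ 2))))) 0 :=
    (G1.add ((hasDerivAt_id' (0 : ℝ)).mul G2)).const_mul r
  refine (H1.sub H2).congr_deriv ?_
  simp only [add_zero, one_mul, zero_mul]

theorem pf_stmtMin : stmtMin := by
  intro n a hn ha han hstep
  have hn0 : (0 : ℝ) < n + 1 := by positivity
  set δ : ℝ := 1 / ((n : ℝ) + 1) - a with hδ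
  have hδ0 : 0 < δ := by
    rw [hδ, sub_pos, lt_div_iff₀ hn0]; exact han
  have h1a : a < 1 := by
    have : (1 : ℝ) ≤ n := by exact_mod_cast hn
    nlinarith
  set r : ℝ := (1 - a) ^ (n + 1) with hr
  set D : (Fin n → ℝ) × ℝ → ℝ := fun p => (1 - r) * I0 a p.1 -
    r * ∫ σ in (0 : ℝ)..(1 / (max (p.2 - a) δ)), GG a p.1 σ with hD
  have hGu : Continuous (Function.uncurry (fun (p : (Fin n → ℝ) × ℝ) (σ : ℝ) => GG a p.1 σ)) := by
    unfold GG Function.uncurry
    fun_prop
  have hs : Continuous (fun p : (Fin n → ℝ) × ℝ => 1 / (max (p.2 - a) δ)) := by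
    apply Continuous.div continuous_const (by fun_prop)
    intro p
    have := lt_of_lt_of_le hδ0 (le_max_right (p.2 - a) δ)
    exact this.ne'
  have hDc : Continuous D := by
    rw [hD]
    apply Continuous.sub
    · apply Continuous.mul continuous_const
      exact continuous_parametric_intervalIntegral_of_continuous' hGu (-1 / a) 0
    · apply Continuous.mul continuous_const
      exact continuous_parametric_intervalIntegral_of_continuous hGu hs
  set K : Set ((Fin n → ℝ) × ℝ) := {p | (∀ j, 0 ≤ p.1 j) ∧ (∀ j, p.1 j ≤ p.2) ∧ p.2 ≤ 1 ∧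
    ∑ j, p.1 j = 1 - p.2} with hK
  have hKu : ∀ p ∈ K, δ ≤ p.2 - a := by
    intro p hp
    obtain ⟨h0, h1, h2, h3⟩ := hp
    have : ∑ j, p.1 j ≤ n * p.2 := by
      calc ∑ j, p.1 j ≤ ∑ j : Fin n, p.2 := Finset.sum_le_sum (fun j _ => h1 j)
        _ = n * p.2 := by simp
    have h4 : 1 / ((n : ℝ) + 1) ≤ p.2 := by
      rw [div_le_iff₀ hn0]; linarith
    rw [hδ]; linarith
  have hDK : ∀ p ∈ K, D p = (1 - r) * I0 a p.1 - r * Ip a p.1 p.2 := by
    intro p hp
    simp only [hD, Ip]
    rw [max_eq_left (hKu p hp)]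
  have hKc : IsCompact K := by
    apply IsCompact.of_isClosed_subset (isCompact_Icc (a := ((0 : Fin n → ℝ), (0 : ℝ)))
      (b := ((1 : Fin n → ℝ), (1 : ℝ))))
    · have : K = (⋂ j, {p | 0 ≤ p.1 j}) ∩ ((⋂ j, {p | p.1 j ≤ p.2}) ∩ ({p | p.2 ≤ 1} ∩
          {p | ∑ j, p.1 j = 1 - p.2})) := by
        ext p
        simp [hK]
      rw [this]
      refine IsClosed.inter (isClosed_iInter fun j => isClosed_le (by fun_prop) (by fun_prop)) ?_
      refine IsClosed.inter (isClosed_iInter fun j => isClosed_le (by fun_prop) (by fun_prop)) ?_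
      refine IsClosed.inter (isClosed_le (by fun_prop) (by fun_prop)) ?_
      exact isClosed_eq (by fun_prop) (by fun_prop)
    · intro p hp
      obtain ⟨h0, h1, h2, h3⟩ := hp
      have hu : 0 ≤ p.2 := le_trans (h0 ⟨0, hn⟩) (h1 _)
      exact ⟨⟨fun j => h0 j, hu⟩, ⟨fun j => le_trans (h1 j) h2, h2⟩⟩
  have hKn : K.Nonempty := ⟨(0, 1), by simp [hK]⟩
  obtain ⟨p, hpK, hpmin⟩ := hKc.exists_isMinOn hKn hDc.continuousOn
  have hkey : 0 ≤ D p := by
    by_cases hy : p.1 = 0
    · have hp2 : p.2 = 1 := by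
        have := hpK.2.2.2
        rw [hy] at this
        simp at this
        linarith
      rw [hDK p hpK, hy, hp2, i0_zero a ha, ip_zero a ha h1a]
      have h5 : r * (1 / (1 - a)) ^ (n + 1) = 1 := by
        rw [hr, ← mul_pow]
        have : (1 - a) * (1 / (1 - a)) = 1 := by
          have h1a' : (1 - a) ≠ 0 := by linarith
          field_simp
        rw [this, one_pow]
      have : (1 - r) * (1 / (a * (n + 1))) - r * (1 / (a * (n + 1)) * ((1 / (1 - a)) ^ (n + 1) - 1))
          = (1 / (a * (n + 1))) * (1 - r * (1 / (1 - a)) ^ (n + 1)) := by ring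
      rw [this, h5]
      simp
    · exfalso
      obtain ⟨h0, h1, h2, h3⟩ := hpK
      have hne : (Finset.univ : Finset (Fin n)).Nonempty := ⟨⟨0, hn⟩, Finset.mem_univ _⟩
      obtain ⟨j, _, hj⟩ := Finset.exists_max_image Finset.univ p.1 hne
      have hj' : ∀ i, p.1 i ≤ p.1 j := fun i => hj i (Finset.mem_univ i)
      have hjpos : 0 < p.1 j := by
        rcases lt_or_eq_of_le (h0 j) with h | h
        · exact h
        · exfalso
          apply hy
          funext i
          have := hj' i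
          have := h0 i
          simp only [Pi.zero_apply]
          linarith
      have hst := hstep p.1 p.2 j h0 hj' (h1 j) hjpos h3
      have hua : a < p.2 := by
        have := hKu p ⟨h0, h1, h2, h3⟩
        linarith
      have hd := deriv_phi a r p.1 p.2 j hua
      set d := (1 - r) * (∫ σ in (-1 / a)..0, σ * ∏ i ∈ univ.erase j, (1 - σ * (p.1 i - a))) -
        r * (GG a p.1 (1 / (p.2 - a)) * (-1 / (p.2 - a) ^ 2) +
          ∫ σ in (0 : ℝ)..(1 / (p.2 - a)), σ * ∏ i ∈ univ.erase j, (1 - σ * (p.1 i - a))) with hdd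
      have hdneg : d < 0 := by
        have e2 : (∫ σ in (-1 / a)..0, (-σ) * ∏ i ∈ univ.erase j, (1 - σ * (p.1 i - a))) =
            - ∫ σ in (-1 / a)..0, σ * ∏ i ∈ univ.erase j, (1 - σ * (p.1 i - a)) := by
          rw [← intervalIntegral.integral_neg]
          congr 1
          funext σ
          ring
        have e3 : GG a p.1 (1 / (p.2 - a)) = ∏ i, (1 - (p.1 i - a) / (p.2 - a)) := by
          unfold GG
          apply Finset.prod_congr rfl
          intro i _
          ring
        rw [e2, ← e3] at hst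
        rw [hdd]
        have e4 : (GG a p.1 (1 / (p.2 - a)) * (-1 / (p.2 - a) ^ 2)) =
          - (GG a p.1 (1 / (p.2 - a)) / (p.2 - a) ^ 2) := by ring
        rw [e4]
        rw [← hr] at hst
        linarith
      have hslope := hasDerivAt_iff_tendsto_slope.mp hd
      have hev : ∀ᶠ e in nhdsWithin (0 : ℝ) {0}ᶜ, slope (fun e : ℝ => (1 - r) *
          I0 a (Function.update p.1 j (p.1 j - e)) -
          r * Ip a (Function.update p.1 j (p.1 j - e)) (p.2 + e)) 0 e < 0 :=
        hslope.eventually (gt_mem_nhds hdneg)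
      have hev2 : ∀ᶠ e in nhdsWithin (0 : ℝ) (Set.Ioi 0), slope (fun e : ℝ => (1 - r) *
          I0 a (Function.update p.1 j (p.1 j - e)) -
          r * Ip a (Function.update p.1 j (p.1 j - e)) (p.2 + e)) 0 e < 0 :=
        hev.filter_mono (nhdsWithin_mono _ (fun x hx => ne_of_gt hx))
      have hev3 : ∀ᶠ e in nhdsWithin (0 : ℝ) (Set.Ioi 0), e ∈ Set.Ioc (0 : ℝ) (p.1 j) :=
        Ioc_mem_nhdsGT hjpos
      obtain ⟨e, he1, he2⟩ := (hev2.and hev3).exists
      obtain ⟨he0, hej⟩ := he2
      have hq : (Function.update p.1 j (p.1 j - e), p.2 + e) ∈ K := by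
        refine ⟨?_, ?_, ?_, ?_⟩
        · intro i
          by_cases hi : i = j
          · subst hi; simp; linarith
          · simp [Function.update_of_ne hi]; exact h0 i
        · intro i
          by_cases hi : i = j
          · subst hi; simp; have := h1 i; linarith
          · simp [Function.update_of_ne hi]; have := h1 i; linarith
        · have : p.1 j ≤ ∑ i, p.1 i := Finset.single_le_sum (fun i _ => h0 i) (Finset.mem_univ j)
          simp only
          linarith
        · have : ∑ i, Function.update p.1 j (p.1 j - e) i = ∑ i, p.1 i - e := by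
            rw [← Finset.add_sum_erase univ _ (Finset.mem_univ j),
              ← Finset.add_sum_erase univ p.1 (Finset.mem_univ j)]
            have h9 : ∑ x ∈ univ.erase j, Function.update p.1 j (p.1 j - e) x =
                ∑ x ∈ univ.erase j, p.1 x := by
              apply Finset.sum_congr rfl
              intro x hx
              rw [Function.update_of_ne (Finset.ne_of_mem_erase hx)]
            rw [h9, Function.update_self]
            ring
          simp only
          rw [this, h3]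
          ring
      have hmin := hpmin hq
      simp only [Set.mem_setOf_eq] at hmin
      rw [hDK _ hq, hDK p ⟨h0, h1, h2, h3⟩] at hmin
      simp only [slope, vsub_eq_sub, smul_eq_mul, sub_zero] at he1
      have he4 : 0 < e⁻¹ := inv_pos.mpr he0
      have hself : Function.update p.1 j (p.1 j) = p.1 := Function.update_eq_self j p.1
      rw [hself, add_zero] at he1
      simp only at hmin
      nlinarith
  intro y u hy0 hyu hu1 hsum
  have hmem : (y, u) ∈ K := ⟨hy0, hyu, hu1, hsum⟩
  have h7 := hpmin hmem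
  simp only [Set.mem_setOf_eq] at h7
  rw [hDK _ hmem] at h7
  simp only at h7
  rw [← hr]
  linarith

end Pool.Agent.Helper38.EMC
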